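import Pool.Agent.N662.SE.Stm2

set_option autoImplicit false

/-!
# Part RATEX: rate of convergence with a general exponent
(port of `Pool/Agent/N353/SE/RATE.lean`)
-/

open MeasureTheory ProbabilityTheory Filter Topology

namespace Pool.Agent.N316.SE.Ratex

open Pool.Agent.N662.SE

/-- `2^(ξ-1)` -/
noncomputable def rt (ξ : ℝ) : ℝ := (2 : ℝ) ^ (ξ - 1)

theorem rt_pos (ξ : ℝ) : 0 < rt ξ := by unfold rt; positivity

theorem rt_lt_one {ξ : ℝ} (h : ξ < 1) : rt ξ < 1 := by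
  unfold rt
  exact Real.rpow_lt_one_of_one_lt_of_neg (by norm_num) (by linarith)

theorem two_rt (ξ : ℝ) : 2 * rt ξ = (2 : ℝ) ^ ξ := by
  unfold rt
  rw [Real.rpow_sub (by norm_num), Real.rpow_one]
  ring

/-- the constant of the doubling argument -/
noncomputable def cS (ξ : ℝ) : ℝ := ∑' j : ℕ, ((j : ℝ) + 1) * rt ξ ^ j

theorem summ {ξ : ℝ} (h : ξ < 1) : Summable fun j : ℕ => ((j : ℝ) + 1) * rt ξ ^ j := by
  have h1 : Summable fun j : ℕ => (j : ℝ) ^ 1 * rt ξ ^ j :=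
    summable_pow_mul_geometric_of_norm_lt_one 1 (by
      rw [Real.norm_of_nonneg (rt_pos ξ).le]
      exact rt_lt_one h)
  have h2 : Summable fun j : ℕ => rt ξ ^ j := summable_geometric_of_lt_one (rt_pos ξ).le (rt_lt_one h)
  refine (h1.add h2).congr fun j => ?_
  ring

theorem sum_le {ξ : ℝ} (h : ξ < 1) (k : ℕ) :
    ∑ j ∈ Finset.range k, ((j : ℝ) + 1) * rt ξ ^ j ≤ cS ξ :=
  (summ h).sum_le_tsum _ fun j _ => by
    have := rt_pos ξ
    positivity

section abs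

variable {F : ℕ → ℝ} {C ξ : ℝ}

theorem iter (hC : 0 ≤ C)
    (hd : ∀ m, 1 ≤ m → F (2 * m) ≤ 2 * F m + C * (m : ℝ) ^ ξ * Real.log (m + 1)) (m : ℕ)
    (hm : 1 ≤ m) (k : ℕ) : F (2 ^ k * m) ≤
      2 ^ k * (F m + C / 2 * (∑ j ∈ Finset.range k, ((j : ℝ) + 1) * rt ξ ^ j) *
        ((m : ℝ) ^ ξ * Real.log (m + 1))) := by
  induction k with
  | zero => simp
  | succ k ih =>
    have h1 := hd (2 ^ k * m) (Nat.one_le_iff_ne_zero.2 (by positivity))
    have hm' : (1 : ℝ) ≤ m := by exact_mod_cast hm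
    have hlm : 0 ≤ Real.log (m + 1) := Real.log_nonneg (by linarith)
    have h2 : Real.log (((2 ^ k * m : ℕ) : ℝ) + 1) ≤ (k + 1) * Real.log (m + 1) := by
      have h3 : (((2 ^ k * m : ℕ) : ℝ) + 1) ≤ ((m : ℝ) + 1) ^ (k + 1) := by
        have h4 : 2 ^ k * m + 1 ≤ (m + 1) ^ (k + 1) := by
          have h5 : 2 ^ k ≤ (m + 1) ^ k := Nat.pow_le_pow_left (by omega) k
          have h6 : 1 ≤ (m + 1) ^ k := Nat.one_le_pow _ _ (by omega)
          calc 2 ^ k * m + 1 ≤ (m + 1) ^ k * m + (m + 1) ^ k := by gcongr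
            _ = (m + 1) ^ (k + 1) := by ring
        exact_mod_cast h4
      calc Real.log (((2 ^ k * m : ℕ) : ℝ) + 1) ≤ Real.log (((m : ℝ) + 1) ^ (k + 1)) :=
            Real.log_le_log (by positivity) h3
        _ = (k + 1) * Real.log (m + 1) := by
            rw [Real.log_pow]
            push_cast
            ring
    have h3 : ((2 ^ k * m : ℕ) : ℝ) ^ ξ = 2 ^ k * rt ξ ^ k * (m : ℝ) ^ ξ := by
      rw [← mul_pow, two_rt, ← Real.rpow_natCast, ← Real.rpow_mul (by norm_num), mul_comm ξ,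
        Real.rpow_mul (by norm_num), Real.rpow_natCast, ← Real.mul_rpow (by positivity)
        (by positivity)]
      push_cast
      rfl
    have h4 : C * ((2 ^ k * m : ℕ) : ℝ) ^ ξ * Real.log (((2 ^ k * m : ℕ) : ℝ) + 1) ≤
        C * (2 ^ k * rt ξ ^ k * (m : ℝ) ^ ξ) * ((k + 1) * Real.log (m + 1)) := by
      rw [h3]
      have := rt_pos ξ
      gcongr
    have h5 : 2 ^ (k + 1) * m = 2 * (2 ^ k * m) := by ring
    rw [h5, Finset.sum_range_succ]
    calc F (2 * (2 ^ k * m)) ≤ 2 * F (2 ^ k * m) +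
          C * ((2 ^ k * m : ℕ) : ℝ) ^ ξ * Real.log (((2 ^ k * m : ℕ) : ℝ) + 1) := h1
      _ ≤ 2 * (2 ^ k * (F m + C / 2 * (∑ j ∈ Finset.range k, ((j : ℝ) + 1) * rt ξ ^ j) *
        ((m : ℝ) ^ ξ * Real.log (m + 1)))) +
        C * (2 ^ k * rt ξ ^ k * (m : ℝ) ^ ξ) * ((k + 1) * Real.log (m + 1)) := by
          gcongr
      _ = _ := by ring

theorem iter' (hC : 0 ≤ C) (hξ : ξ < 1)
    (hd : ∀ m, 1 ≤ m → F (2 * m) ≤ 2 * F m + C * (m : ℝ) ^ ξ * Real.log (m + 1)) (m : ℕ)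
    (hm : 1 ≤ m) (k : ℕ) : F (2 ^ k * m) ≤
      2 ^ k * (F m + C / 2 * cS ξ * ((m : ℝ) ^ ξ * Real.log (m + 1))) := by
  refine (iter hC hd m hm k).trans ?_
  have hm' : (1 : ℝ) ≤ m := by exact_mod_cast hm
  have hlm : 0 ≤ Real.log (m + 1) := Real.log_nonneg (by linarith)
  have := sum_le hξ k
  gcongr

/-- the limit, from the rate -/
theorem lim_of_rate {φ : ℝ} (h1 : ∀ n : ℕ, F n ≤ n * φ)
    (h2 : ∀ n : ℕ, n * φ ≤ F n + C * Real.sqrt n * Real.log (n + 1)) :
    Tendsto (fun n : ℕ => F n / n) atTop (𝓝 φ) := by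
  have h3 : Tendsto (fun n : ℕ => Real.log ((n : ℝ) + 1) / ((n : ℝ) + 1) ^ (1 / 2 : ℝ)) atTop
      (𝓝 0) := by
    have h4 := (isLittleO_log_rpow_atTop (r := 1 / 2) (by norm_num)).tendsto_div_nhds_zero
    have h5 : Tendsto (fun n : ℕ => (n : ℝ) + 1) atTop atTop :=
      tendsto_atTop_add_const_right _ _ tendsto_natCast_atTop_atTop
    exact h4.comp h5
  have h4 : Tendsto (fun n : ℕ => φ - |C| * 2 * (Real.log ((n : ℝ) + 1) /
      ((n : ℝ) + 1) ^ (1 / 2 : ℝ))) atTop (𝓝 φ) := by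
    have := (h3.const_mul (|C| * 2)).const_sub φ
    simpa using this
  refine tendsto_of_tendsto_of_tendsto_of_le_of_le' h4 tendsto_const_nhds ?_ ?_
  · filter_upwards [eventually_ge_atTop 1] with n hn
    have hn' : (1 : ℝ) ≤ n := by exact_mod_cast hn
    have hn0 : (0 : ℝ) < n := by linarith
    have hl : 0 ≤ Real.log ((n : ℝ) + 1) := Real.log_nonneg (by linarith)
    have h5 := h2 n
    have h6 : φ ≤ F n / n + C * Real.sqrt n * Real.log (n + 1) / n := by
      rw [← add_div, le_div_iff₀ hn0]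
      linarith
    have h7 : C * Real.sqrt n * Real.log (n + 1) / n ≤
        |C| * 2 * (Real.log ((n : ℝ) + 1) / ((n : ℝ) + 1) ^ (1 / 2 : ℝ)) := by
      rw [← Real.sqrt_eq_rpow]
      have h8 : 0 < Real.sqrt n := Real.sqrt_pos.2 hn0
      have h9 : 0 < Real.sqrt ((n : ℝ) + 1) := Real.sqrt_pos.2 (by linarith)
      have h10 : Real.sqrt ((n : ℝ) + 1) ≤ 2 * Real.sqrt n := by
        have h11 : Real.sqrt ((n : ℝ) + 1) ≤ Real.sqrt (4 * n) := Real.sqrt_le_sqrt (by linarith)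
        have h12 : Real.sqrt (4 * (n : ℝ)) = 2 * Real.sqrt n := by
          rw [Real.sqrt_mul (by norm_num), show (4 : ℝ) = 2 ^ 2 by norm_num,
            Real.sqrt_sq (by norm_num)]
        rwa [h12] at h11
      have h14 : C * Real.sqrt n * Real.log (n + 1) / n = C * (Real.log (n + 1) / Real.sqrt n) := by
        rw [div_eq_iff hn0.ne']
        calc C * Real.sqrt n * Real.log (n + 1) = C * Real.log (n + 1) * (n / Real.sqrt n) := by
              rw [Real.div_sqrt]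
              ring
          _ = C * (Real.log (n + 1) / Real.sqrt n) * n := by ring
      rw [h14]
      have h15 : Real.log ((n : ℝ) + 1) / Real.sqrt n ≤
          2 * (Real.log ((n : ℝ) + 1) / Real.sqrt ((n : ℝ) + 1)) := by
        rw [← mul_div_assoc, div_le_div_iff₀ h8 h9]
        nlinarith [mul_le_mul_of_nonneg_left h10 hl]
      calc C * (Real.log (n + 1) / Real.sqrt n) ≤ |C| * (Real.log (n + 1) / Real.sqrt n) :=
            mul_le_mul_of_nonneg_right (le_abs_self C) (by positivity)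
        _ ≤ |C| * (2 * (Real.log ((n : ℝ) + 1) / Real.sqrt ((n : ℝ) + 1))) :=
            mul_le_mul_of_nonneg_left h15 (abs_nonneg C)
        _ = _ := by ring
    linarith
  · filter_upwards [eventually_ge_atTop 1] with n hn
    have hn0 : (0 : ℝ) < n := by exact_mod_cast hn
    rw [div_le_iff₀ hn0]
    linarith [h1 n]

/-- the rate -/
theorem rate_abs {φ : ℝ} (hC : 0 ≤ C) (hξ : ξ < 1) (h1 : Tendsto (fun n : ℕ => F n / n) atTop (𝓝 φ))
    (hd : ∀ m, 1 ≤ m → F (2 * m) ≤ 2 * F m + C * (m : ℝ) ^ ξ * Real.log (m + 1)) (n : ℕ)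
    (hn : 1 ≤ n) : n * φ ≤ F n + C / 2 * cS ξ * (n : ℝ) ^ ξ * Real.log (n + 1) := by
  have hn' : (0 : ℝ) < n := by exact_mod_cast hn
  have h2 : Tendsto (fun k : ℕ => 2 ^ k * n) atTop atTop := by
    apply tendsto_atTop_mono (f := fun k : ℕ => k)
    · intro k
      have := (Nat.lt_two_pow_self (n := k)).le
      calc k ≤ 2 ^ k := this
        _ = 2 ^ k * 1 := (mul_one _).symm
        _ ≤ 2 ^ k * n := Nat.mul_le_mul_left _ hn
    · exact tendsto_id
  have h3 := h1.comp h2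
  have h4 : φ ≤ (F n + C / 2 * cS ξ * ((n : ℝ) ^ ξ * Real.log (n + 1))) / n := by
    refine le_of_tendsto' h3 fun k => ?_
    have h4 := iter' hC hξ hd n hn k
    simp only [Function.comp]
    rw [div_le_div_iff₀ (by positivity) hn']
    push_cast
    calc F (2 ^ k * n) * n ≤
          (2 ^ k * (F n + C / 2 * cS ξ * ((n : ℝ) ^ ξ * Real.log (n + 1)))) * n := by gcongr
      _ = _ := by ring
  rw [le_div_iff₀ hn'] at h4
  linarith

end abs

theorem main (hr : S_RATE) (hdx : S_DBLX) : S_RATEX := by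
  intro d hd1 Ω _ P _ ω hω hexp β
  obtain ⟨φ, C1, hφ, h1⟩ := hr d hd1 Ω P ω hω hexp β
  refine ⟨φ, hφ, fun h n => (h1 h n).1, ?_⟩
  intro U ξ α C0 hξ0 hξ1 hα hconc
  obtain ⟨C, hC⟩ := hdx d hd1 Ω P ω hω hexp β U ξ α C0 hξ0 hα hconc
  refine ⟨max C 0 / 2 * cS ξ, fun h hh n => ?_⟩
  have hlim := lim_of_rate (F := free P ω β h) (C := C1) (φ := φ h) (fun n => (h1 h n).1)
    (fun n => (h1 h n).2)
  have hdbl : ∀ m : ℕ, 1 ≤ m → free P ω β h (2 * m) ≤
      2 * free P ω β h m + max C 0 * (m : ℝ) ^ ξ * Real.log (m + 1) := by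
    intro m hm
    refine (hC h hh m hm).trans ?_
    have hlm : 0 ≤ Real.log (m + 1) := Real.log_nonneg (by
      have : (0 : ℝ) ≤ m := by positivity
      linarith)
    have := le_max_left C 0
    gcongr
  rcases Nat.eq_zero_or_pos n with rfl | hn
  · have h2 := (h1 h 0).2
    simpa using h2
  · exact rate_abs (le_max_right C 0) hξ1 hlim hdbl n hn

end Pool.Agent.N316.SE.Ratex
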